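import Pool.Agent.Helper23_Refl.StmtD

/-!
# Invariants of isometry: sums over vectors modulo `m`
-/

namespace Pool.Agent.Refl.Ns

open Matrix

variable {m P : ℕ}

/-- quadratic form modulo `m` -/
def qf (M : Matrix (Fin 4) (Fin 4) (ZMod m)) (x : Fin 4 → ZMod m) : ZMod m := x ⬝ᵥ M.mulVec x

/-- four coordinates -/
def e4 (α : Type) : (Fin 4 → α) ≃ α × α × α × α where
  toFun f := (f 0, f 1, f 2, f 3)
  invFun p := ![p.1, p.2.1, p.2.2.1, p.2.2.2]
  left_inv f := by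
    funext i
    fin_cases i <;> rfl
  right_inv p := by simp

/-- the sum -/
noncomputable def S (P m : ℕ) [NeZero m] (M : Matrix (Fin 4) (Fin 4) (ZMod m)) : ZMod P :=
  ∑ x : Fin 4 → ZMod m, ((2 ^ 16 : ℕ) : ZMod P) ^ (qf M x).val

theorem qf_mul (M V : Matrix (Fin 4) (Fin 4) (ZMod m)) (x : Fin 4 → ZMod m) :
    qf (Vᵀ * M * V) x = qf M (V.mulVec x) := by
  unfold qf
  rw [← Matrix.mulVec_mulVec, ← Matrix.mulVec_mulVec, Matrix.mulVec_transpose,
    dotProduct_comm, ← Matrix.dotProduct_mulVec, dotProduct_comm]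

theorem S_inv [NeZero m] (M V W : Matrix (Fin 4) (Fin 4) (ZMod m)) (h : V * W = 1) :
    S P m (Vᵀ * M * V) = S P m M := by
  have h' : W * V = 1 := mul_eq_one_comm.1 h
  let e : (Fin 4 → ZMod m) ≃ (Fin 4 → ZMod m) :=
    { toFun := V.mulVec
      invFun := W.mulVec
      left_inv := fun x => by rw [Matrix.mulVec_mulVec, h', Matrix.one_mulVec]
      right_inv := fun x => by rw [Matrix.mulVec_mulVec, h, Matrix.one_mulVec] }
  unfold S
  refine Fintype.sum_equiv e _ _ fun x => ?_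
  rw [qf_mul]
  rfl

/-- the sum of a block -/
noncomputable def s2 (P m : ℕ) [NeZero m] (a b c : ZMod m) : ZMod P :=
  ∑ t : ZMod m, ∑ u : ZMod m,
    ((2 ^ 16 : ℕ) : ZMod P) ^ (a * (t * t) + (2 * b * (t * u) + c * (u * u))).val

theorem pow_val [NeZero m] {w : ZMod P} (hw : w ^ m = 1) (a b : ZMod m) :
    w ^ (a + b).val = w ^ a.val * w ^ b.val := by
  rw [ZMod.val_add, ← pow_add]
  conv_rhs => rw [← Nat.mod_add_div (a.val + b.val) m, pow_add, pow_mul, hw, one_pow, mul_one]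

/-- two blocks -/
def blk {R : Type} [Zero R] (a b c d e f : R) : Matrix (Fin 4) (Fin 4) R :=
  !![a, b, 0, 0; b, c, 0, 0; 0, 0, d, e; 0, 0, e, f]

theorem S_blk [NeZero m] (hw : ((2 ^ 16 : ℕ) : ZMod P) ^ m = 1) (a b c d e f : ZMod m) :
    S P m (blk a b c d e f) = s2 P m a b c * s2 P m d e f := by
  unfold S
  rw [Fintype.sum_equiv (e4 (ZMod m)) _ (fun p : ZMod m × ZMod m × ZMod m × ZMod m =>
    ((2 ^ 16 : ℕ) : ZMod P) ^ (a * (p.1 * p.1) + (2 * b * (p.1 * p.2.1) + c * (p.2.1 * p.2.1))).val *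
    ((2 ^ 16 : ℕ) : ZMod P) ^ (d * (p.2.2.1 * p.2.2.1) +
      (2 * e * (p.2.2.1 * p.2.2.2) + f * (p.2.2.2 * p.2.2.2))).val)]
  · rw [Fintype.sum_prod_type, s2, Finset.sum_mul]
    refine Finset.sum_congr rfl fun t _ => ?_
    rw [Fintype.sum_prod_type, Finset.sum_mul]
    refine Finset.sum_congr rfl fun u _ => ?_
    rw [Fintype.sum_prod_type, s2, Finset.mul_sum]
    refine Finset.sum_congr rfl fun v _ => ?_
    rw [Finset.mul_sum]
  · intro x
    rw [← pow_val hw]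
    congr 2
    simp only [qf, blk, e4, Equiv.coe_fn_mk, dotProduct, mulVec, Fin.sum_univ_four, Matrix.of_apply,
      Matrix.cons_val_zero, Matrix.cons_val_one, Matrix.cons_val]
    ring

end Pool.Agent.Refl.Ns
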