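import Pool.Agent.Helper23_Refl.KCmp

/-!
# Kernel functions: invariants of isometry
-/

namespace Pool.Agent.Refl.K

noncomputable section

/-- four numbers -/
structure N4 where
  x : Nat
  y : Nat
  z : Nat
  w : Nat

/-- product -/
def dotN (u v : N4) : Nat :=
  Nat.add (Nat.add (Nat.mul u.x v.x) (Nat.mul u.y v.y))
    (Nat.add (Nat.mul u.z v.z) (Nat.mul u.w v.w))

/-- evaluate -/
def fcN {α : Type} (v : N4) (f : N4 → α) : α :=
  fc v.x fun x => fc v.y fun y => fc v.z fun z => fc v.w fun w => f (N4.mk x y z w)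

/-- residue of an integer -/
def imN (m : Nat) (x : Int) : Nat :=
  Int.rec (fun n => Nat.mod n m) (fun n => Nat.sub (Nat.sub m 1) (Nat.mod n m)) x

/-- digit of four bits -/
def dgN (s k : Nat) : Nat := Nat.mod (Nat.shiftRight s (Nat.mul 4 k)) 16

/-- four digits -/
def rdN (s k : Nat) : N4 := N4.mk (dgN s k) (dgN s (Nat.add k 1)) (dgN s (Nat.add k 2))
  (dgN s (Nat.add k 3))

/-- matrix times vector -/
def mulN (r0 r1 r2 r3 x : N4) : N4 := N4.mk (dotN r0 x) (dotN r1 x) (dotN r2 x) (dotN r3 x)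

/-- the sum of a block -/
def s2N (m a b c : Nat) : Nat :=
  Nat.rec 0 (fun t acc => Nat.rec acc (fun u acc =>
    Nat.add acc (Nat.pow 2 (Nat.mul 16 (Nat.mod (Nat.add (Nat.mul a (Nat.mul t t))
      (Nat.add (Nat.mul (Nat.mul 2 b) (Nat.mul t u)) (Nat.mul c (Nat.mul u u)))) m)))) m) m

/-- modulus -/
def pmN (m : Nat) : Nat := Nat.sub (Nat.pow 2 (Nat.mul 16 m)) 1

/-- `x` mod `m` is `r` -/
def eqN (m r x : Nat) : Bool := Nat.beq (Nat.mod x m) r

/-- `W V = 1` for rows `w` of `W` and columns `c` of `V` -/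
def invN (m : Nat) (c0 c1 c2 c3 w0 w1 w2 w3 : N4) : Bool :=
  ands (ands (ands (eqN m 1 (dotN w0 c0)) (eqN m 0 (dotN w0 c1)))
    (ands (eqN m 0 (dotN w0 c2)) (eqN m 0 (dotN w0 c3))))
  (ands (ands (ands (eqN m 0 (dotN w1 c0)) (eqN m 1 (dotN w1 c1)))
    (ands (eqN m 0 (dotN w1 c2)) (eqN m 0 (dotN w1 c3))))
  (ands (ands (ands (eqN m 0 (dotN w2 c0)) (eqN m 0 (dotN w2 c1)))
    (ands (eqN m 1 (dotN w2 c2)) (eqN m 0 (dotN w2 c3))))
  (ands (ands (eqN m 0 (dotN w3 c0)) (eqN m 0 (dotN w3 c1)))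
    (ands (eqN m 0 (dotN w3 c2)) (eqN m 1 (dotN w3 c3))))))

/-- the Gram matrix of the columns is in blocks -/
def blkN (m : Nat) (y0 y1 y2 y3 c0 c1 c2 c3 : N4) (a b c d e f : Nat) : Bool :=
  ands (ands (ands (eqN m a (dotN c0 y0)) (eqN m b (dotN c0 y1)))
    (ands (eqN m 0 (dotN c0 y2)) (eqN m 0 (dotN c0 y3))))
  (ands (ands (eqN m c (dotN c1 y1)) (ands (eqN m 0 (dotN c1 y2)) (eqN m 0 (dotN c1 y3))))
  (ands (ands (eqN m d (dotN c2 y2)) (eqN m e (dotN c2 y3))) (eqN m f (dotN c3 y3))))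

/-- value of the invariant, plus one; zero if the certificate is wrong -/
def svN (m : Nat) (T : I10) (s : Nat) : Nat :=
  fcN (N4.mk (imN m T.a00) (imN m T.a01) (imN m T.a02) (imN m T.a03)) fun r0 =>
  fcN (N4.mk (imN m T.a01) (imN m T.a11) (imN m T.a12) (imN m T.a13)) fun r1 =>
  fcN (N4.mk (imN m T.a02) (imN m T.a12) (imN m T.a22) (imN m T.a23)) fun r2 =>
  fcN (N4.mk (imN m T.a03) (imN m T.a13) (imN m T.a23) (imN m T.a33)) fun r3 =>
  fcN (rdN s 0) fun c0 => fcN (rdN s 4) fun c1 => fcN (rdN s 8) fun c2 => fcN (rdN s 12) fun c3 =>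
  fcN (rdN s 16) fun w0 => fcN (rdN s 20) fun w1 => fcN (rdN s 24) fun w2 =>
  fcN (rdN s 28) fun w3 =>
  fcN (mulN r0 r1 r2 r3 c0) fun y0 => fcN (mulN r0 r1 r2 r3 c1) fun y1 =>
  fcN (mulN r0 r1 r2 r3 c2) fun y2 => fcN (mulN r0 r1 r2 r3 c3) fun y3 =>
  fc (dgN s 32) fun a => fc (dgN s 33) fun b => fc (dgN s 34) fun c =>
  fc (dgN s 35) fun d => fc (dgN s 36) fun e => fc (dgN s 37) fun f =>
  Bool.rec 0 (Nat.succ (Nat.mod (Nat.mul (s2N m a b c) (s2N m d e f)) (pmN m)))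
    (ands (invN m c0 c1 c2 c3 w0 w1 w2 w3) (blkN m y0 y1 y2 y3 c0 c1 c2 c3 a b c d e f))

/-- rows of a symmetric matrix -/
def rw0 (A : I10) : I4 := I4.mk A.a00 A.a01 A.a02 A.a03
def rw1 (A : I10) : I4 := I4.mk A.a01 A.a11 A.a12 A.a13
def rw2 (A : I10) : I4 := I4.mk A.a02 A.a12 A.a22 A.a23
def rw3 (A : I10) : I4 := I4.mk A.a03 A.a13 A.a23 A.a33

/-- products with the columns of `A` -/
def colN (u : I4) (A : I10) (x0 x1 x2 x3 : Int) : Bool :=
  ands (ands (Int.beq' (dotI u (rw0 A)) x0) (Int.beq' (dotI u (rw1 A)) x1))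
    (ands (Int.beq' (dotI u (rw2 A)) x2) (Int.beq' (dotI u (rw3 A)) x3))

/-- `T A = n`, and `A` is primitive -/
def dualN (T A : I10) (n : Int) : Bool :=
  ands (ands (ands (colN (rw0 T) A n 0 0 0) (colN (rw1 T) A 0 n 0 0))
    (ands (colN (rw2 T) A 0 0 n 0) (colN (rw3 T) A 0 0 0 n)))
    (Nat.beq (Nat.gcd (Nat.gcd (gcdI (rw0 A)) (gcdI (rw1 A))) (Nat.gcd (gcdI (rw2 A)) (gcdI (rw3 A)))) 1)

/-- the key of a lattice; zero if the certificate is wrong -/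
def keyN (T : I10) (s : Nat) : Nat :=
  fc10 (i10 24 (Nat.mod s (Nat.pow 2 240))) fun A => fc (Nat.shiftRight s 240) fun s =>
  fc (Nat.mod s (Nat.pow 2 32)) fun n => fc (Nat.shiftRight s 32) fun s =>
  fc (svN 5 T (Nat.mod s (Nat.pow 2 152))) fun a => fc (Nat.shiftRight s 152) fun s =>
  fc (svN 8 T (Nat.mod s (Nat.pow 2 152))) fun b => fc (Nat.shiftRight s 152) fun s =>
  fc (svN 8 A (Nat.mod s (Nat.pow 2 152))) fun c => fc (Nat.shiftRight s 152) fun s =>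
  fc (svN 9 T s) fun d => fc (Int.natAbs (det4 (rw0 T) (rw1 T) (rw2 T) (rw3 T))) fun e =>
  Bool.rec 0
    (Nat.add (Nat.mul (Nat.add (Nat.mul (Nat.add (Nat.mul (Nat.add (Nat.mul
      e (Nat.pow 2 96)) a) (Nat.pow 2 144)) b) (Nat.pow 2 144)) c) (Nat.pow 2 160)) d)
    (ands (ands (Nat.ble 1 n) (dualN T A (Int.ofNat n))) (ands (ands (Nat.ble 1 a) (Nat.ble 1 b))
      (ands (Nat.ble 1 c) (Nat.ble 1 d))))

/-- the keys of a list -/
def keyL : List I10 → List Nat → List Nat → Bool :=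
  fun l => List.rec (fun _ _ => true) (fun T _ ih s k =>
    List.rec false (fun s0 ss _ => List.rec false (fun k0 ks _ =>
      ands (ands (Nat.ble 1 k0) (Nat.beq (keyN T s0) k0)) (ih ss ks)) k) s) l

/-- the residues modulo `M` are distinct, and none of them is in the set `mask` -/
def dupN (M : Nat) (l : List Nat) : Nat → Bool :=
  List.rec (fun _ => true) (fun x _ ih mask => fc (Nat.pow 2 (Nat.mod x M)) fun p =>
    Bool.rec false (fc (Nat.lor mask p) ih) (Nat.beq (Nat.land mask p) 0)) l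

end

end Pool.Agent.Refl.K
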