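import Pool.Agent.Helper23_Refl.Ns.A
import Pool.Agent.Helper23_Refl.Ns.B
import Pool.Agent.Helper23_Refl.StmtC2

/-!
# Correctness of the kernel functions
-/

namespace Pool.Agent.Refl.Ns

open Matrix

theorem fc_eq {α : Type} (n : ℕ) (f : ℕ → α) : K.fc n f = f n := by cases n <;> rfl

theorem fcI_eq {α : Type} (x : ℤ) (f : ℤ → α) : K.fcI x f = f x := by
  cases x with
  | ofNat n =>
    have h : K.fcI (Int.ofNat n) f = K.fc n fun n => f (Int.ofNat n) := rfl
    rw [h, fc_eq]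
  | negSucc n =>
    have h : K.fcI (Int.negSucc n) f = K.fc n fun n => f (Int.negSucc n) := rfl
    rw [h, fc_eq]

theorem fc10_eq {α : Type} (A : K.I10) (f : K.I10 → α) : K.fc10 A f = f A := by
  simp only [K.fc10, fcI_eq]

theorem ands_iff {a b : Bool} : K.ands a b = true ↔ a = true ∧ b = true := by
  cases a <;> cases b <;> simp [K.ands]

theorem fcN_eq {α : Type} (v : K.N4) (f : K.N4 → α) : K.fcN v f = f v := by
  simp only [K.fcN, fc_eq]

theorem rec_add (g : ℕ → ℕ) (acc n : ℕ) :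
    (Nat.rec acc (fun u r => Nat.add r (g u)) n : ℕ) = acc + ∑ u ∈ Finset.range n, g u := by
  induction n with
  | zero => simp
  | succ n ih =>
    rw [Finset.sum_range_succ, ← add_assoc, ← ih]
    rfl

theorem s2N_sum (m a b c : ℕ) : K.s2N m a b c = ∑ t ∈ Finset.range m, ∑ u ∈ Finset.range m,
    2 ^ (16 * ((a * (t * t) + (2 * b * (t * u) + c * (u * u))) % m)) := by
  have h1 : K.s2N m a b c = (Nat.rec 0 (fun t acc => Nat.rec acc (fun u acc =>
    Nat.add acc (2 ^ (16 * ((a * (t * t) + (2 * b * (t * u) + c * (u * u))) % m)))) m) m : ℕ) := rfl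
  rw [h1]
  simp only [rec_add]
  have h2 : ∀ n : ℕ, (Nat.rec 0 (fun t acc => acc + ∑ u ∈ Finset.range m,
      2 ^ (16 * ((a * (t * t) + (2 * b * (t * u) + c * (u * u))) % m))) n : ℕ) =
      ∑ t ∈ Finset.range n, ∑ u ∈ Finset.range m,
        2 ^ (16 * ((a * (t * t) + (2 * b * (t * u) + c * (u * u))) % m)) := by
    intro n
    induction n with
    | zero => simp
    | succ n ih => rw [Finset.sum_range_succ, ← ih]
  exact h2 m

theorem sum_zmod {R : Type} [AddCommMonoid R] (m : ℕ) [NeZero m] (f : ZMod m → R) :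
    ∑ t : ZMod m, f t = ∑ t ∈ Finset.range m, f (t : ZMod m) := by
  obtain ⟨k, rfl⟩ : ∃ k, m = k + 1 := Nat.exists_eq_succ_of_ne_zero (NeZero.ne m)
  rw [Finset.sum_range]
  refine Finset.sum_congr rfl fun i _ => ?_
  congr 1
  exact (ZMod.natCast_zmod_val i).symm

theorem s2N_cast (P m a b c : ℕ) [NeZero m] :
    ((K.s2N m a b c : ℕ) : ZMod P) = s2 P m (a : ZMod m) (b : ZMod m) (c : ZMod m) := by
  rw [s2N_sum, s2, sum_zmod]
  push_cast
  refine Finset.sum_congr rfl fun t _ => ?_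
  rw [sum_zmod]
  refine Finset.sum_congr rfl fun u _ => ?_
  have h : ((a : ZMod m) * ((t : ZMod m) * t) + (2 * b * ((t : ZMod m) * u) + c * ((u : ZMod m) * u))) =
      ((a * (t * t) + (2 * b * (t * u) + c * (u * u)) : ℕ) : ZMod m) := by push_cast; ring
  rw [h, ZMod.val_natCast, pow_mul]
  norm_num

theorem pm_one (m : ℕ) : ((2 ^ 16 : ℕ) : ZMod (K.pmN m)) ^ m = 1 := by
  have h : ((K.pmN m : ℕ) : ZMod (K.pmN m)) = 0 := ZMod.natCast_self _
  have h2 : (2 ^ 16) ^ m = K.pmN m + 1 := by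
    have : K.pmN m = 2 ^ (16 * m) - 1 := rfl
    rw [this, ← pow_mul]
    have := Nat.one_le_two_pow (n := 16 * m)
    omega
  rw [← Nat.cast_pow, h2, Nat.cast_add, h, zero_add, Nat.cast_one]

theorem imN_cast (m : ℕ) [NeZero m] (x : ℤ) : ((K.imN m x : ℕ) : ZMod m) = (x : ZMod m) := by
  have hm : 0 < m := Nat.pos_of_ne_zero (NeZero.ne m)
  cases x with
  | ofNat n =>
    have : K.imN m (Int.ofNat n) = n % m := rfl
    rw [this]
    simp
  | negSucc n =>
    have h : K.imN m (Int.negSucc n) = m - 1 - n % m := rfl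
    have h1 : n % m < m := Nat.mod_lt _ hm
    have h2 : K.imN m (Int.negSucc n) + (n % m + 1) = m := by rw [h]; omega
    have h3 := congrArg (fun k : ℕ => (k : ZMod m)) h2
    simp only [Nat.cast_add, Nat.cast_one, ZMod.natCast_self, ZMod.natCast_mod] at h3
    rw [Int.cast_negSucc]
    push_cast
    linear_combination h3

theorem eqN_spec {m r x : ℕ} (h : K.eqN m r x = true) : ((x : ℕ) : ZMod m) = ((r : ℕ) : ZMod m) := by
  have h1 : x % m = r := Nat.eq_of_beq_eq_true h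
  rw [← h1, ZMod.natCast_mod]

/-- a matrix with given columns -/
def colM (m : ℕ) (c0 c1 c2 c3 : K.N4) : Matrix (Fin 4) (Fin 4) (ZMod m) :=
  !![(c0.x : ZMod m), c1.x, c2.x, c3.x; (c0.y : ZMod m), c1.y, c2.y, c3.y;
    (c0.z : ZMod m), c1.z, c2.z, c3.z; (c0.w : ZMod m), c1.w, c2.w, c3.w]

/-- a matrix with given rows -/
def rowM (m : ℕ) (c0 c1 c2 c3 : K.N4) : Matrix (Fin 4) (Fin 4) (ZMod m) :=
  !![(c0.x : ZMod m), c0.y, c0.z, c0.w; (c1.x : ZMod m), c1.y, c1.z, c1.w;
    (c2.x : ZMod m), c2.y, c2.z, c2.w; (c3.x : ZMod m), c3.y, c3.z, c3.w]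

theorem inv_spec {m : ℕ} {c0 c1 c2 c3 w0 w1 w2 w3 : K.N4}
    (h : K.invN m c0 c1 c2 c3 w0 w1 w2 w3 = true) :
    rowM m w0 w1 w2 w3 * colM m c0 c1 c2 c3 = 1 := by
  simp only [K.invN, ands_iff] at h
  obtain ⟨⟨⟨h00, h01⟩, h02, h03⟩, ⟨⟨h10, h11⟩, h12, h13⟩, ⟨⟨h20, h21⟩, h22, h23⟩,
    ⟨h30, h31⟩, h32, h33⟩ := h
  have e00 := eqN_spec h00; have e01 := eqN_spec h01
  have e02 := eqN_spec h02; have e03 := eqN_spec h03
  have e10 := eqN_spec h10; have e11 := eqN_spec h11
  have e12 := eqN_spec h12; have e13 := eqN_spec h13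
  have e20 := eqN_spec h20; have e21 := eqN_spec h21
  have e22 := eqN_spec h22; have e23 := eqN_spec h23
  have e30 := eqN_spec h30; have e31 := eqN_spec h31
  have e32 := eqN_spec h32; have e33 := eqN_spec h33
  simp only [K.dotN, Nat.add_eq, Nat.mul_eq, Nat.cast_add, Nat.cast_mul, Nat.cast_one,
    Nat.cast_zero] at e00 e01 e02 e03 e10 e11 e12 e13 e20 e21 e22 e23 e30 e31 e32 e33
  ext i j
  fin_cases i <;> fin_cases j <;>
    simp only [rowM, colM, Matrix.mul_apply, Fin.sum_univ_four, Matrix.of_apply, Fin.zero_eta,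
      Fin.mk_one, Fin.reduceFinMk, Matrix.cons_val_zero, Matrix.cons_val_one, Matrix.cons_val,
      Matrix.one_apply_eq, ne_eq, Fin.reduceEq, not_false_eq_true, Matrix.one_apply_ne,
      zero_ne_one, one_ne_zero]
  · linear_combination e00
  · linear_combination e01
  · linear_combination e02
  · linear_combination e03
  · linear_combination e10
  · linear_combination e11
  · linear_combination e12
  · linear_combination e13
  · linear_combination e20
  · linear_combination e21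
  · linear_combination e22
  · linear_combination e23
  · linear_combination e30
  · linear_combination e31
  · linear_combination e32
  · linear_combination e33

/-- first row modulo `m`, and so on -/
noncomputable def q0 (m : ℕ) (T : K.I10) : K.N4 :=
  K.N4.mk (K.imN m T.a00) (K.imN m T.a01) (K.imN m T.a02) (K.imN m T.a03)
noncomputable def q1 (m : ℕ) (T : K.I10) : K.N4 :=
  K.N4.mk (K.imN m T.a01) (K.imN m T.a11) (K.imN m T.a12) (K.imN m T.a13)
noncomputable def q2 (m : ℕ) (T : K.I10) : K.N4 :=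
  K.N4.mk (K.imN m T.a02) (K.imN m T.a12) (K.imN m T.a22) (K.imN m T.a23)
noncomputable def q3 (m : ℕ) (T : K.I10) : K.N4 :=
  K.N4.mk (K.imN m T.a03) (K.imN m T.a13) (K.imN m T.a23) (K.imN m T.a33)

theorem blk_spec {m : ℕ} [NeZero m] {T : K.I10} {c0 c1 c2 c3 : K.N4} {a b c d e f : ℕ}
    (h : K.blkN m (K.mulN (q0 m T) (q1 m T) (q2 m T) (q3 m T) c0)
      (K.mulN (q0 m T) (q1 m T) (q2 m T) (q3 m T) c1)
      (K.mulN (q0 m T) (q1 m T) (q2 m T) (q3 m T) c2)
      (K.mulN (q0 m T) (q1 m T) (q2 m T) (q3 m T) c3) c0 c1 c2 c3 a b c d e f = true) :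
    (colM m c0 c1 c2 c3)ᵀ * (matI T).map (Int.cast : ℤ → ZMod m) * colM m c0 c1 c2 c3 =
      blk (a : ZMod m) b c d e f := by
  simp only [K.blkN, ands_iff] at h
  obtain ⟨⟨⟨h00, h01⟩, h02, h03⟩, ⟨h11, h12, h13⟩, ⟨h22, h23⟩, h33⟩ := h
  have e00 := eqN_spec h00; have e01 := eqN_spec h01
  have e02 := eqN_spec h02; have e03 := eqN_spec h03
  have e11 := eqN_spec h11
  have e12 := eqN_spec h12; have e13 := eqN_spec h13
  have e22 := eqN_spec h22; have e23 := eqN_spec h23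
  have e33 := eqN_spec h33
  simp only [K.dotN, K.mulN, q0, q1, q2, q3, Nat.add_eq, Nat.mul_eq, Nat.cast_add, Nat.cast_mul,
    Nat.cast_zero, imN_cast] at e00 e01 e02 e03 e11 e12 e13 e22 e23 e33
  ext i j
  fin_cases i <;> fin_cases j <;>
    simp only [blk, colM, matI, Matrix.mul_apply, Fin.sum_univ_four, Matrix.of_apply, Fin.zero_eta,
      Fin.mk_one, Fin.reduceFinMk, Matrix.cons_val_zero, Matrix.cons_val_one, Matrix.cons_val,
      Matrix.transpose_apply, Matrix.map_apply]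
  · linear_combination e00
  · linear_combination e01
  · linear_combination e02
  · linear_combination e03
  · linear_combination e01
  · linear_combination e11
  · linear_combination e12
  · linear_combination e13
  · linear_combination e02
  · linear_combination e12
  · linear_combination e22
  · linear_combination e23
  · linear_combination e03
  · linear_combination e13
  · linear_combination e23
  · linear_combination e33

theorem brec_ne {b : Bool} {x : ℕ} (h : (Bool.rec 0 x b : ℕ) ≠ 0) : b = true := by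
  cases b
  · exact absurd rfl h
  · rfl

/-- `v` is the value of the invariant, plus one -/
def Val (m v : ℕ) [NeZero m] (G : M4) : Prop :=
  0 < v ∧ v ≤ K.pmN m ∧
    ((v - 1 : ℕ) : ZMod (K.pmN m)) = S (K.pmN m) m (G.map (Int.cast : ℤ → ZMod m))

theorem svN_spec {m : ℕ} [NeZero m] {T : K.I10} {s : ℕ} (h : K.svN m T s ≠ 0) :
    Val m (K.svN m T s) (matI T) := by
  have hq : K.svN m T s = Bool.rec 0 (Nat.succ (Nat.mod (Nat.mul
      (K.s2N m (K.dgN s 32) (K.dgN s 33) (K.dgN s 34))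
      (K.s2N m (K.dgN s 35) (K.dgN s 36) (K.dgN s 37))) (K.pmN m)))
    (K.ands (K.invN m (K.rdN s 0) (K.rdN s 4) (K.rdN s 8) (K.rdN s 12)
      (K.rdN s 16) (K.rdN s 20) (K.rdN s 24) (K.rdN s 28))
      (K.blkN m (K.mulN (q0 m T) (q1 m T) (q2 m T) (q3 m T) (K.rdN s 0))
      (K.mulN (q0 m T) (q1 m T) (q2 m T) (q3 m T) (K.rdN s 4))
      (K.mulN (q0 m T) (q1 m T) (q2 m T) (q3 m T) (K.rdN s 8))
      (K.mulN (q0 m T) (q1 m T) (q2 m T) (q3 m T) (K.rdN s 12))
      (K.rdN s 0) (K.rdN s 4) (K.rdN s 8) (K.rdN s 12)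
      (K.dgN s 32) (K.dgN s 33) (K.dgN s 34) (K.dgN s 35) (K.dgN s 36) (K.dgN s 37))) := by
    simp only [K.svN, fcN_eq, fc_eq, q0, q1, q2, q3]
  have hb := brec_ne (hq ▸ h)
  rw [hq, hb]
  obtain ⟨hi, hk⟩ := ands_iff.1 hb
  have hm : 0 < m := Nat.pos_of_ne_zero (NeZero.ne m)
  have hp : 0 < K.pmN m := by
    have : K.pmN m = 2 ^ (16 * m) - 1 := rfl
    rw [this]
    have : 2 ^ 1 ≤ 2 ^ (16 * m) := Nat.pow_le_pow_right (by norm_num) (by omega)
    omega
  refine ⟨Nat.succ_pos _, Nat.mod_lt _ hp, ?_⟩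
  have h1 : ∀ x : ℕ, Nat.succ x - 1 = x := fun x => rfl
  show (((Nat.succ (Nat.mod (Nat.mul _ _) (K.pmN m))) - 1 : ℕ) : ZMod (K.pmN m)) = _
  rw [h1]
  have h2 : ∀ x y : ℕ, ((Nat.mod (Nat.mul x y) (K.pmN m) : ℕ) : ZMod (K.pmN m)) =
      (x : ZMod (K.pmN m)) * (y : ZMod (K.pmN m)) := by
    intro x y
    show ((x * y % K.pmN m : ℕ) : ZMod (K.pmN m)) = _
    rw [ZMod.natCast_mod, Nat.cast_mul]
  rw [h2, s2N_cast, s2N_cast, ← S_blk (pm_one m), ← blk_spec hk]
  exact S_inv _ _ _ (mul_eq_one_comm.1 (inv_spec hi))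

end Pool.Agent.Refl.Ns
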