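import Pool.Agent.Helper23_Refl.Ns.C
import Pool.Agent.Helper23_Refl.StmtD

/-!
# Keys separate classes of similarity
-/

namespace Pool.Agent.Refl.Ns

open Matrix

theorem dvd_mulM {d : ℤ} {B : M4} (h : ∀ i j, d ∣ B i j) (X Y : M4) : ∀ i j, d ∣ (X * B * Y) i j := by
  intro i j
  rw [Matrix.mul_apply]
  refine Finset.dvd_sum fun k _ => Dvd.dvd.mul_right ?_ _
  rw [Matrix.mul_apply]
  exact Finset.dvd_sum fun l _ => Dvd.dvd.mul_left (h l k) _

theorem prim_conj {A : M4} (h : PrimG A) (U : M4ˣ) : PrimG ((U : M4)ᵀ * A * (U : M4)) := by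
  intro d hd
  apply h d
  have h1 := dvd_mulM hd ((U⁻¹ : M4ˣ) : M4)ᵀ ((U⁻¹ : M4ˣ) : M4)
  have h2 : ((U⁻¹ : M4ˣ) : M4)ᵀ * ((U : M4)ᵀ * A * (U : M4)) * ((U⁻¹ : M4ˣ) : M4) = A := by
    have e1 : (U : M4) * ((U⁻¹ : M4ˣ) : M4) = 1 := by simp
    have e2 : ((U⁻¹ : M4ˣ) : M4)ᵀ * (U : M4)ᵀ = 1 := by
      rw [← Matrix.transpose_mul, e1, Matrix.transpose_one]
    calc _ = (((U⁻¹ : M4ˣ) : M4)ᵀ * (U : M4)ᵀ) * A * ((U : M4) * ((U⁻¹ : M4ˣ) : M4)) := by
          simp only [Matrix.mul_assoc]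
      _ = A := by rw [e1, e2, Matrix.one_mul, Matrix.mul_one]
  rw [h2] at h1
  exact h1

theorem scaled {B C : M4} (hB : PrimG B) (hC : PrimG C) {a b : ℤ} (ha : 0 < a) (hb : 0 < b)
    (h : a • B = b • C) : a = b ∧ B = C := by
  have hg : 0 < (Int.gcd a b : ℤ) := by
    have : Int.gcd a b ≠ 0 := by
      intro h0
      exact ha.ne' (Int.gcd_eq_zero_iff.1 h0).1
    omega
  obtain ⟨u, hu⟩ := Int.gcd_dvd_left (a := a) (b := b)
  obtain ⟨v, hv⟩ := Int.gcd_dvd_right (a := a) (b := b)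
  have hu0 : 0 < u := by
    by_contra h0
    push Not at h0
    nlinarith
  have hv0 : 0 < v := by
    by_contra h0
    push Not at h0
    nlinarith
  have hco : IsCoprime u v := by
    rw [Int.isCoprime_iff_gcd_eq_one]
    have h1 : Int.gcd ((Int.gcd a b : ℤ) * u) ((Int.gcd a b : ℤ) * v) = Int.gcd a b := by
      rw [← hu, ← hv]
    rw [Int.gcd_mul_left, Int.natAbs_natCast] at h1
    have h2 : 0 < Int.gcd a b := by exact_mod_cast hg
    exact Nat.eq_of_mul_eq_mul_left h2 (by rw [h1, mul_one])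
  have he : ∀ i j, u * B i j = v * C i j := by
    intro i j
    have h3 : a * B i j = b * C i j := by
      have := congrFun (congrFun h i) j
      simpa only [Matrix.smul_apply, smul_eq_mul] using this
    have h4 : (Int.gcd a b : ℤ) * (u * B i j) = (Int.gcd a b : ℤ) * (v * C i j) := by
      rw [← mul_assoc, ← mul_assoc, ← hu, ← hv]
      exact h3
    exact mul_left_cancel₀ hg.ne' h4
  have h5 : IsUnit u := hC u fun i j => hco.dvd_of_dvd_mul_left (Dvd.intro _ (he i j))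
  have h6 : IsUnit v := hB v fun i j => hco.symm.dvd_of_dvd_mul_left (Dvd.intro _ (he i j).symm)
  have h7 : u = 1 := by
    rcases Int.isUnit_iff.1 h5 with h | h <;> omega
  have h8 : v = 1 := by
    rcases Int.isUnit_iff.1 h6 with h | h <;> omega
  subst h7
  subst h8
  refine ⟨hu.trans hv.symm, ?_⟩
  ext i j
  have := he i j
  simpa only [one_mul] using this

theorem sim_isom {G G' : M4} (hG : PrimG G) (hG' : PrimG G') (h : Similar G G') : Isom G G' := by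
  obtain ⟨U, a, b, ha, hb, h⟩ := h
  exact ⟨U, (scaled (prim_conj hG U) hG' ha hb h).2⟩

theorem val_eq {m v v' : ℕ} [NeZero m] {G : M4} (U : M4ˣ) (h : Val m v G)
    (h' : Val m v' ((U : M4)ᵀ * G * (U : M4))) : v = v' := by
  obtain ⟨h1, h2, h3⟩ := h
  obtain ⟨h4, h5, h6⟩ := h'
  have e1 : (U : M4) * ((U⁻¹ : M4ˣ) : M4) = 1 := by simp
  have hmap : ∀ X Y : M4, (X * Y).map (Int.cast : ℤ → ZMod m) =
      X.map (Int.cast : ℤ → ZMod m) * Y.map (Int.cast : ℤ → ZMod m) := by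
    intro X Y
    exact Matrix.map_mul (f := Int.castRingHom (ZMod m))
  have h7 : (U : M4).map (Int.cast : ℤ → ZMod m) * ((U⁻¹ : M4ˣ) : M4).map (Int.cast : ℤ → ZMod m) = 1 := by
    rw [← hmap, e1]
    exact Matrix.map_one _ (by simp) (by simp)
  have h8 : S (K.pmN m) m (((U : M4)ᵀ * G * (U : M4)).map (Int.cast : ℤ → ZMod m)) =
      S (K.pmN m) m (G.map (Int.cast : ℤ → ZMod m)) := by
    rw [hmap, hmap, Matrix.transpose_map]
    exact S_inv _ _ _ h7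
  rw [h8, ← h3] at h6
  have h9 := (ZMod.natCast_eq_natCast_iff' _ _ _).1 h6
  rw [Nat.mod_eq_of_lt (by omega), Nat.mod_eq_of_lt (by omega)] at h9
  omega

/-- `k` is the key of the lattice `G` -/
def Key (G : M4) (k : ℕ) : Prop :=
  ∃ (A : M4) (n : ℤ) (a b c d : ℕ), 0 < n ∧ Gᵀ = G ∧ Aᵀ = A ∧ G * A = n • (1 : M4) ∧ PrimG A ∧
    Val 5 a G ∧ Val 8 b G ∧ Val 8 c A ∧ Val 9 d G ∧
    k = (((G.det.natAbs * 2 ^ 96 + a) * 2 ^ 144 + b) * 2 ^ 144 + c) * 2 ^ 160 + d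

theorem key_eq {G G' : M4} {k k' : ℕ} (h : Key G k) (h' : Key G' k') (hI : Isom G G') : k = k' := by
  obtain ⟨U, rfl⟩ := hI
  obtain ⟨A, n, a, b, c, d, hn, hG, hA, hGA, hp, va, vb, vc, vd, rfl⟩ := h
  obtain ⟨A', n', a', b', c', d', hn', hG', hA', hGA', hp', va', vb', vc', vd', rfl⟩ := h'
  have e1 : (U : M4) * ((U⁻¹ : M4ˣ) : M4) = 1 := by simp
  have e2 : ((U⁻¹ : M4ˣ) : M4) * (U : M4) = 1 := by simp
  have e3 : (U : M4)ᵀ * ((U⁻¹ : M4ˣ) : M4)ᵀ = 1 := by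
    rw [← Matrix.transpose_mul, e2, Matrix.transpose_one]
  -- the inverse transposed
  let W : M4ˣ := ⟨((U⁻¹ : M4ˣ) : M4)ᵀ, (U : M4)ᵀ, by
    rw [← Matrix.transpose_mul, e1, Matrix.transpose_one], e3⟩
  have hW : (W : M4)ᵀ = ((U⁻¹ : M4ˣ) : M4) := Matrix.transpose_transpose _
  have hW2 : (W : M4) = ((U⁻¹ : M4ˣ) : M4)ᵀ := rfl
  have hB : ((U : M4)ᵀ * G * (U : M4)) * ((W : M4)ᵀ * A * (W : M4)) = n • (1 : M4) := by
    rw [hW, hW2]
    calc _ = (U : M4)ᵀ * G * ((U : M4) * ((U⁻¹ : M4ˣ) : M4)) * A * ((U⁻¹ : M4ˣ) : M4)ᵀ := by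
          simp only [Matrix.mul_assoc]
      _ = (U : M4)ᵀ * (G * A) * ((U⁻¹ : M4ˣ) : M4)ᵀ := by
          rw [e1, Matrix.mul_one]
          simp only [Matrix.mul_assoc]
      _ = n • (1 : M4) := by
          rw [hGA, Matrix.mul_smul, Matrix.mul_one, Matrix.smul_mul, e3]
  have hB' : ((W : M4)ᵀ * A * (W : M4)) * ((U : M4)ᵀ * G * (U : M4)) = n • (1 : M4) := by
    have hY : ((W : M4)ᵀ * A * (W : M4))ᵀ = (W : M4)ᵀ * A * (W : M4) := by
      rw [Matrix.transpose_mul, Matrix.transpose_mul, hA, Matrix.transpose_transpose,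
        Matrix.mul_assoc]
    have := congrArg Matrix.transpose hB
    rw [Matrix.transpose_mul, hY, hG', Matrix.transpose_smul, Matrix.transpose_one] at this
    exact this
  have hs : n' • ((W : M4)ᵀ * A * (W : M4)) = n • A' := by
    calc n' • ((W : M4)ᵀ * A * (W : M4)) =
        ((W : M4)ᵀ * A * (W : M4)) * (n' • (1 : M4)) := by rw [Matrix.mul_smul, Matrix.mul_one]
      _ = ((W : M4)ᵀ * A * (W : M4)) * (((U : M4)ᵀ * G * (U : M4)) * A') := by rw [hGA']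
      _ = (((W : M4)ᵀ * A * (W : M4)) * ((U : M4)ᵀ * G * (U : M4))) * A' :=
          (Matrix.mul_assoc _ _ _).symm
      _ = n • A' := by rw [hB', Matrix.smul_mul, Matrix.one_mul]
  obtain ⟨-, hs2⟩ := scaled (prim_conj hp W) hp' hn' hn hs
  rw [← hs2] at vc'
  have q1 := val_eq U va va'
  have q2 := val_eq U vb vb'
  have q3 := val_eq W vc vc'
  have q4 := val_eq U vd vd'
  have q5 : ((U : M4)ᵀ * G * (U : M4)).det.natAbs = G.det.natAbs := by
    rw [Matrix.det_mul, Matrix.det_mul, Matrix.det_transpose, Int.natAbs_mul, Int.natAbs_mul]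
    have h1 : IsUnit (U : M4).det := (Matrix.isUnit_iff_isUnit_det _).1 U.isUnit
    rw [Int.isUnit_iff_natAbs_eq.1 h1]
    ring
  rw [q1, q2, q3, q4, q5]

end Pool.Agent.Refl.Ns
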