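import Pool.Agent.Helper23_Refl.Ns.D
import Pool.Agent.Helper93_Refl.Lina

/-!
# Keys of the table
-/

namespace Pool.Agent.Refl.Ns

open Matrix

theorem beqI {a b : ℤ} (h : Int.beq' a b = true) : a = b := by
  rw [Int.beq'_eq] at h
  simpa using h

theorem symI (A : K.I10) : (matI A)ᵀ = matI A := by
  ext i j
  fin_cases i <;> fin_cases j <;> rfl

theorem detI (T : K.I10) :
    K.det4 (K.rw0 T) (K.rw1 T) (K.rw2 T) (K.rw3 T) = (matI T).det := by
  exact H93.detA_eq T

theorem dualN_spec {T A : K.I10} {n : ℤ} (h : K.dualN T A n = true) :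
    matI T * matI A = n • (1 : M4) ∧ PrimG (matI A) := by
  simp only [K.dualN, K.colN, ands_iff] at h
  obtain ⟨⟨⟨⟨⟨h00, h01⟩, h02, h03⟩, ⟨h10, h11⟩, h12, h13⟩, ⟨⟨h20, h21⟩, h22, h23⟩,
    ⟨h30, h31⟩, h32, h33⟩, hg⟩ := h
  have e00 := beqI h00; have e01 := beqI h01
  have e02 := beqI h02; have e03 := beqI h03
  have e10 := beqI h10; have e11 := beqI h11
  have e12 := beqI h12; have e13 := beqI h13
  have e20 := beqI h20; have e21 := beqI h21
  have e22 := beqI h22; have e23 := beqI h23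
  have e30 := beqI h30; have e31 := beqI h31
  have e32 := beqI h32; have e33 := beqI h33
  simp only [K.dotI, K.rw0, K.rw1, K.rw2, K.rw3, Int.add_def, Int.mul_def] at e00 e01 e02 e03 e10 e11 e12 e13 e20 e21 e22 e23 e30 e31 e32 e33
  refine ⟨?_, ?_⟩
  · ext i j
    fin_cases i <;> fin_cases j <;>
      simp only [matI, Matrix.mul_apply, Fin.sum_univ_four, Matrix.of_apply, Fin.zero_eta,
        Fin.mk_one, Fin.reduceFinMk, Matrix.cons_val_zero, Matrix.cons_val_one, Matrix.cons_val,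
        Matrix.smul_apply, smul_eq_mul,
        Matrix.one_apply_eq, ne_eq, Fin.reduceEq, not_false_eq_true, Matrix.one_apply_ne,
        zero_ne_one, one_ne_zero, mul_one, mul_zero]
    · linear_combination e00
    · linear_combination e01
    · linear_combination e02
    · linear_combination e03
    · linear_combination e10
    · linear_combination e11
    · linear_combination e12
    · linear_combination e13
    · linear_combination e20
    · linear_combination e21
    · linear_combination e22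
    · linear_combination e23
    · linear_combination e30
    · linear_combination e31
    · linear_combination e32
    · linear_combination e33
  · intro d hd
    have h1 : Nat.gcd (Nat.gcd (K.gcdI (K.rw0 A)) (K.gcdI (K.rw1 A)))
      (Nat.gcd (K.gcdI (K.rw2 A)) (K.gcdI (K.rw3 A))) = 1 := Nat.eq_of_beq_eq_true hg
    have h2 : ∀ i j, d.natAbs ∣ ((matI A) i j).natAbs := fun i j => Int.natAbs_dvd_natAbs.2 (hd i j)
    have h3 : d.natAbs ∣ 1 := by
      rw [← h1]
      refine Nat.dvd_gcd (Nat.dvd_gcd ?_ ?_) (Nat.dvd_gcd ?_ ?_)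
      · exact Nat.dvd_gcd (Nat.dvd_gcd (h2 0 0) (h2 0 1)) (Nat.dvd_gcd (h2 0 2) (h2 0 3))
      · exact Nat.dvd_gcd (Nat.dvd_gcd (h2 1 0) (h2 1 1)) (Nat.dvd_gcd (h2 1 2) (h2 1 3))
      · exact Nat.dvd_gcd (Nat.dvd_gcd (h2 2 0) (h2 2 1)) (Nat.dvd_gcd (h2 2 2) (h2 2 3))
      · exact Nat.dvd_gcd (Nat.dvd_gcd (h2 3 0) (h2 3 1)) (Nat.dvd_gcd (h2 3 2) (h2 3 3))
    exact Int.isUnit_iff_natAbs_eq.2 (Nat.dvd_one.1 h3)

theorem keyN_spec {T : K.I10} {s : ℕ} (h : K.keyN T s ≠ 0) : Key (matI T) (K.keyN T s) := by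
  have hq : ∃ (A : K.I10) (n s5 s8 t8 s9 : ℕ), K.keyN T s = Bool.rec 0
    (Nat.add (Nat.mul (Nat.add (Nat.mul (Nat.add (Nat.mul (Nat.add (Nat.mul
      (Int.natAbs (K.det4 (K.rw0 T) (K.rw1 T) (K.rw2 T) (K.rw3 T)))
      (Nat.pow 2 96)) (K.svN 5 T s5)) (Nat.pow 2 144)) (K.svN 8 T s8)) (Nat.pow 2 144))
      (K.svN 8 A t8)) (Nat.pow 2 160)) (K.svN 9 T s9))
    (K.ands (K.ands (Nat.ble 1 n) (K.dualN T A (Int.ofNat n))) (K.ands (K.ands
      (Nat.ble 1 (K.svN 5 T s5)) (Nat.ble 1 (K.svN 8 T s8)))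
      (K.ands (Nat.ble 1 (K.svN 8 A t8)) (Nat.ble 1 (K.svN 9 T s9))))) := by
    refine ⟨K.i10 24 (Nat.mod s (Nat.pow 2 240)), Nat.mod (Nat.shiftRight s 240) (Nat.pow 2 32),
      Nat.mod (Nat.shiftRight (Nat.shiftRight s 240) 32) (Nat.pow 2 152),
      Nat.mod (Nat.shiftRight (Nat.shiftRight (Nat.shiftRight s 240) 32) 152) (Nat.pow 2 152),
      Nat.mod (Nat.shiftRight (Nat.shiftRight (Nat.shiftRight (Nat.shiftRight s 240) 32) 152) 152)
        (Nat.pow 2 152),
      Nat.shiftRight (Nat.shiftRight (Nat.shiftRight (Nat.shiftRight (Nat.shiftRight s 240) 32) 152)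
        152) 152, ?_⟩
    rw [K.keyN, fc10_eq]
    simp only [fc_eq]
  obtain ⟨A, n, s5, s8, t8, s9, hq⟩ := hq
  have hb := brec_ne (hq ▸ h)
  rw [hq, hb]
  obtain ⟨⟨h1, h2⟩, ⟨h3, h4⟩, h5, h6⟩ := by
    simpa only [ands_iff] using hb
  obtain ⟨h7, h8⟩ := dualN_spec h2
  have hn : 0 < n := Nat.le_of_ble_eq_true h1
  have p3 : K.svN 5 T s5 ≠ 0 := (Nat.pos_iff_ne_zero.1 (Nat.le_of_ble_eq_true h3))
  have p4 : K.svN 8 T s8 ≠ 0 := (Nat.pos_iff_ne_zero.1 (Nat.le_of_ble_eq_true h4))
  have p5 : K.svN 8 A t8 ≠ 0 := (Nat.pos_iff_ne_zero.1 (Nat.le_of_ble_eq_true h5))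
  have p6 : K.svN 9 T s9 ≠ 0 := (Nat.pos_iff_ne_zero.1 (Nat.le_of_ble_eq_true h6))
  refine ⟨matI A, n, K.svN 5 T s5, K.svN 8 T s8, K.svN 8 A t8, K.svN 9 T s9, by omega, symI T,
    symI A, h7, h8, svN_spec p3, svN_spec p4, svN_spec p5, svN_spec p6, ?_⟩
  rw [← detI]
  rfl

theorem keyL_spec : ∀ (l : List K.I10) (s k : List ℕ), K.keyL l s k = true →
    List.Forall₂ (fun T x => Key (matI T) x) l k ∨ k.length ≠ l.length := by
  intro l
  induction l with
  | nil =>
    intro s k h
    cases k with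
    | nil => exact Or.inl List.Forall₂.nil
    | cons a k => exact Or.inr (by simp)
  | cons T l ih =>
    intro s k h
    cases s with
    | nil => exact absurd h (by simp [K.keyL])
    | cons s0 ss =>
      cases k with
      | nil => exact absurd h (by simp [K.keyL])
      | cons k0 ks =>
        have h' : K.ands (K.ands (Nat.ble 1 k0) (Nat.beq (K.keyN T s0) k0)) (K.keyL l ss ks) = true := h
        obtain ⟨⟨h1, h2⟩, h3⟩ := by simpa only [ands_iff] using h'
        have h4 : K.keyN T s0 = k0 := Nat.eq_of_beq_eq_true h2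
        have h5 : 1 ≤ k0 := Nat.le_of_ble_eq_true h1
        rcases ih ss ks h3 with h6 | h6
        · left
          refine List.Forall₂.cons ?_ h6
          have := keyN_spec (T := T) (s := s0) (by omega)
          rwa [h4] at this
        · right
          simpa using h6

theorem dupN_spec (M : ℕ) (l : List ℕ) : ∀ mask : ℕ, K.dupN M l mask = true →
    (∀ x ∈ l, mask.testBit (x % M) = false) ∧ l.Pairwise (· ≠ ·) := by
  induction l with
  | nil => intro mask _; exact ⟨by simp, List.Pairwise.nil⟩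
  | cons x l ih =>
    intro mask h
    have h1 : K.dupN M (x :: l) mask = K.fc (Nat.pow 2 (Nat.mod x M)) fun p =>
      Bool.rec false (K.fc (Nat.lor mask p) (K.dupN M l)) (Nat.beq (Nat.land mask p) 0) := rfl
    rw [h1, fc_eq, fc_eq] at h
    cases hb : Nat.beq (Nat.land mask (Nat.pow 2 (Nat.mod x M))) 0 with
    | false => rw [hb] at h; exact absurd h (by simp)
    | true =>
      rw [hb] at h
      have h2 : K.dupN M l (mask ||| 2 ^ (x % M)) = true := h
      have h3 : mask &&& 2 ^ (x % M) = 0 := Nat.eq_of_beq_eq_true hb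
      obtain ⟨h4, h5⟩ := ih _ h2
      have h6 : mask.testBit (x % M) = false := by
        have h7 := congrArg (fun n : ℕ => n.testBit (x % M)) h3
        simpa [Nat.testBit_and] using h7
      have h8 : ∀ y ∈ l, mask.testBit (y % M) = false ∧ x % M ≠ y % M := by
        intro y hy
        have h9 := h4 y hy
        rw [Nat.testBit_or, Bool.or_eq_false_iff, Nat.testBit_two_pow] at h9
        exact ⟨h9.1, by simpa using h9.2⟩
      refine ⟨?_, ?_⟩
      · intro y hy
        rcases List.mem_cons.1 hy with rfl | hy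
        · exact h6
        · exact (h8 y hy).1
      · refine List.Pairwise.cons ?_ h5
        intro y hy hxy
        exact (h8 y hy).2 (by rw [hxy])

theorem mem_key {l : List K.I10} {k : List ℕ} (h : List.Forall₂ (fun T x => Key (matI T) x) l k) :
    ∀ T ∈ l, ∃ x ∈ k, Key (matI T) x := by
  induction h with
  | nil => intro T hT; simp at hT
  | cons h1 _ ih =>
    intro T hT
    rcases List.mem_cons.1 hT with rfl | hT
    · exact ⟨_, by simp, h1⟩
    · obtain ⟨x, hx, hx2⟩ := ih T hT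
      exact ⟨x, by simp [hx], hx2⟩

theorem nosimL {l : List K.I10} {k : List ℕ} (h : List.Forall₂ (fun T x => Key (matI T) x) l k)
    (hk : k.Pairwise (· ≠ ·)) (hp : ∀ T ∈ l, PrimG (matI T)) :
    (l.map matI).Pairwise (fun S T => ¬ Similar S T) := by
  induction h with
  | nil => exact List.Pairwise.nil
  | cons h1 h2 ih =>
    rw [List.map_cons]
    obtain ⟨hk1, hk2⟩ := List.pairwise_cons.1 hk
    refine List.Pairwise.cons ?_ (ih hk2 fun T hT => hp T (by simp [hT]))
    intro G hG hs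
    obtain ⟨T, hT, rfl⟩ := List.mem_map.1 hG
    obtain ⟨x, hx, hx2⟩ := mem_key h2 T hT
    exact hk1 x hx (key_eq h1 hx2 (sim_isom (hp _ (by simp)) (hp T (by simp [hT])) hs))

end Pool.Agent.Refl.Ns
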