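import Pool.Agent.Helper23_Refl.Ns.Data
import Pool.Agent.Helper23_Refl.FinE

/-!
# The lattices of the table are pairwise not similar
-/

namespace Pool.Agent.Refl.Ns

open Pool.Agent.Refl.Fin

/-- the keys are correct -/
def KO (l : List K.I10) (k : List ℕ) : Prop := List.Forall₂ (fun T x => Key (matI T) x) l k

theorem ko {l : List K.I10} {c k : List ℕ} (h : K.keyL l c k = true) (hl : k.length = l.length) :
    KO l k := (keyL_spec l c k h).resolve_right fun h => h hl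

theorem ka {l l' : List K.I10} {k k' : List ℕ} (h : KO l k) (h' : KO l' k') :
    KO (l ++ l') (k ++ k') := List.rel_append h h'

theorem g0 : KO Fin.R0 k0 := ko h0 rfl
theorem g1 : KO Fin.R1 k1 := ko h1 rfl
theorem g2 : KO Fin.R2 k2 := ko h2 rfl
theorem g3 : KO Fin.R3 k3 := ko h3 rfl
theorem g4 : KO Fin.R4 k4 := ko h4 rfl
theorem g5 : KO Fin.R5 k5 := ko h5 rfl
theorem g6 : KO Fin.R6 k6 := ko h6 rfl
theorem g7 : KO Fin.R7 k7 := ko h7 rfl
theorem g8 : KO Fin.R8 k8 := ko h8 rfl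
theorem g9 : KO Fin.R9 k9 := ko h9 rfl
theorem g10 : KO Fin.R10 k10 := ko h10 rfl
theorem g11 : KO Fin.R11 k11 := ko h11 rfl
theorem g12 : KO Fin.R12 k12 := ko h12 rfl
theorem g13 : KO Fin.R13 k13 := ko h13 rfl
theorem g14 : KO Fin.R14 k14 := ko h14 rfl
theorem g15 : KO Fin.R15 k15 := ko h15 rfl
theorem g16 : KO Fin.R16 k16 := ko h16 rfl
theorem g17 : KO Fin.R17 k17 := ko h17 rfl
theorem g18 : KO Fin.R18 k18 := ko h18 rfl
theorem g19 : KO Fin.R19 k19 := ko h19 rfl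
theorem g20 : KO Fin.R20 k20 := ko h20 rfl
theorem g21 : KO Fin.R21 k21 := ko h21 rfl
theorem g22 : KO Fin.R22 k22 := ko h22 rfl
theorem g23 : KO Fin.R23 k23 := ko h23 rfl
theorem g24 : KO Fin.R24 k24 := ko h24 rfl
theorem g25 : KO Fin.R25 k25 := ko h25 rfl
theorem g26 : KO Fin.R26 k26 := ko h26 rfl
theorem g27 : KO Fin.R27 k27 := ko h27 rfl
theorem g28 : KO Fin.R28 k28 := ko h28 rfl
theorem g29 : KO Fin.R29 k29 := ko h29 rfl
theorem g30 : KO Fin.R30 k30 := ko h30 rfl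
theorem g31 : KO Fin.R31 k31 := ko h31 rfl
theorem g32 : KO Fin.R32 k32 := ko h32 rfl
theorem g33 : KO Fin.R33 k33 := ko h33 rfl
theorem g34 : KO Fin.R34 k34 := ko h34 rfl
theorem g35 : KO Fin.R35 k35 := ko h35 rfl
theorem g36 : KO Fin.R36 k36 := ko h36 rfl
theorem g37 : KO Fin.R37 k37 := ko h37 rfl
theorem g38 : KO Fin.R38 k38 := ko h38 rfl
theorem g39 : KO Fin.R39 k39 := ko h39 rfl
theorem g40 : KO Fin.R40 k40 := ko h40 rfl
theorem g41 : KO Fin.R41 k41 := ko h41 rfl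
theorem g42 : KO Fin.R42 k42 := ko h42 rfl
theorem g43 : KO Fin.R43 k43 := ko h43 rfl
theorem g44 : KO Fin.R44 k44 := ko h44 rfl
theorem g45 : KO Fin.R45 k45 := ko h45 rfl
theorem g46 : KO Fin.R46 k46 := ko h46 rfl
theorem g47 : KO Fin.R47 k47 := ko h47 rfl
theorem g48 : KO Fin.R48 k48 := ko h48 rfl
theorem g49 : KO Fin.R49 k49 := ko h49 rfl
theorem g50 : KO Fin.R50 k50 := ko h50 rfl
theorem g51 : KO Fin.R51 k51 := ko h51 rfl
theorem g52 : KO Fin.R52 k52 := ko h52 rfl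
theorem g53 : KO Fin.R53 k53 := ko h53 rfl
theorem g54 : KO Fin.R54 k54 := ko h54 rfl
theorem g55 : KO Fin.R55 k55 := ko h55 rfl
theorem g56 : KO Fin.R56 k56 := ko h56 rfl
theorem g57 : KO Fin.R57 k57 := ko h57 rfl
theorem g58 : KO Fin.R58 k58 := ko h58 rfl
theorem g59 : KO Fin.R59 k59 := ko h59 rfl
theorem g60 : KO Fin.R60 k60 := ko h60 rfl
theorem g61 : KO Fin.R61 k61 := ko h61 rfl
theorem g62 : KO Fin.R62 k62 := ko h62 rfl
theorem g63 : KO Fin.R63 k63 := ko h63 rfl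
theorem g64 : KO Fin.R64 k64 := ko h64 rfl
theorem g65 : KO Fin.R65 k65 := ko h65 rfl
theorem g66 : KO Fin.R66 k66 := ko h66 rfl
theorem g67 : KO Fin.R67 k67 := ko h67 rfl
theorem g68 : KO Fin.R68 k68 := ko h68 rfl
theorem g69 : KO Fin.R69 k69 := ko h69 rfl
theorem g70 : KO Fin.R70 k70 := ko h70 rfl
theorem g71 : KO Fin.R71 k71 := ko h71 rfl
theorem g72 : KO Fin.R72 k72 := ko h72 rfl
theorem g73 : KO Fin.R73 k73 := ko h73 rfl
theorem g74 : KO Fin.R74 k74 := ko h74 rfl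
theorem g75 : KO Fin.R75 k75 := ko h75 rfl
theorem g76 : KO Fin.R76 k76 := ko h76 rfl
theorem g77 : KO Fin.R77 k77 := ko h77 rfl
theorem g78 : KO Fin.R78 k78 := ko h78 rfl
theorem g79 : KO Fin.R79 k79 := ko h79 rfl
theorem g80 : KO Fin.R80 k80 := ko h80 rfl
theorem g81 : KO Fin.R81 k81 := ko h81 rfl
theorem g82 : KO Fin.R82 k82 := ko h82 rfl
theorem g83 : KO Fin.R83 k83 := ko h83 rfl
theorem g84 : KO Fin.R84 k84 := ko h84 rfl
theorem g85 : KO Fin.R85 k85 := ko h85 rfl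
theorem g86 : KO Fin.R86 k86 := ko h86 rfl
theorem g87 : KO Fin.R87 k87 := ko h87 rfl
theorem g88 : KO Fin.R88 k88 := ko h88 rfl
theorem g89 : KO Fin.R89 k89 := ko h89 rfl
theorem g90 : KO Fin.R90 k90 := ko h90 rfl
theorem g91 : KO Fin.R91 k91 := ko h91 rfl

theorem all_key : KO RR kk := by
  unfold RR kk
  exact ka g0 (ka g1 (ka g2 (ka g3 (ka g4 (ka g5 (ka g6 (ka g7 (ka g8 (ka g9 (ka g10 (ka g11 (ka g12 (ka g13 (ka g14 (ka g15 (ka g16 (ka g17 (ka g18 (ka g19 (ka g20 (ka g21 (ka g22 (ka g23 (ka g24 (ka g25 (ka g26 (ka g27 (ka g28 (ka g29 (ka g30 (ka g31 (ka g32 (ka g33 (ka g34 (ka g35 (ka g36 (ka g37 (ka g38 (ka g39 (ka g40 (ka g41 (ka g42 (ka g43 (ka g44 (ka g45 (ka g46 (ka g47 (ka g48 (ka g49 (ka g50 (ka g51 (ka g52 (ka g53 (ka g54 (ka g55 (ka g56 (ka g57 (ka g58 (ka g59 (ka g60 (ka g61 (ka g62 (ka g63 (ka g64 (ka g65 (ka g66 (ka g67 (ka g68 (ka g69 (ka g70 (ka g71 (ka g72 (ka g73 (ka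 g74 (ka g75 (ka g76 (ka g77 (ka g78 (ka g79 (ka g80 (ka g81 (ka g82 (ka g83 (ka g84 (ka g85 (ka g86 (ka g87 (ka g88 (ka g89 (ka g90 g91))))))))))))))))))))))))))))))))))))))))))))))))))))))))))))))))))))))))))))))))))))))))))

def hdup : K.dupN 51581 kk 0 = true := by decide +kernel

theorem prim_RR (T : K.I10) (hT : T ∈ RR) : PrimG (matI T) := by
  have h1 : matI T ∈ reflList := by
    rw [hRR]
    exact List.mem_map.2 ⟨T, hT, rfl⟩
  rw [refl_eq] at h1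
  obtain ⟨j, hj, hj2⟩ := List.mem_map.1 h1
  rw [← hj2]
  exact (pr j (List.mem_range.1 hj)).2.1

theorem nosim : reflList.Pairwise (fun S T => ¬ Similar S T) := by
  rw [hRR]
  exact nosimL all_key (dupN_spec 51581 kk 0 hdup).2 prim_RR

end Pool.Agent.Refl.Ns
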